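import Pool.Agent.W146.Six.All
import Pool.Agent.H430R2.PermCubes.Two

set_option autoImplicit false

/-!
# Variational cubes of order six

For `m ≥ 3` and `n ≥ 2` there are `m` permutation cubes of dimension `m` and order `n` forming a
variational cube (`m` mutually orthogonal latin `m`-dimensional cubes of order `n`) if and only if
`n ≠ 2`; the order `n = 6` is new. Moreover `π_m(6) ∈ {m, m + 1}` for every `m ≥ 6`.
-/

open Pool.Agent.H430R2.PermCubes

/-- (i) For `m ≥ 3` and `n ≥ 2` a variational cube of `m`-dimensional permutation cubes of order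
`n` exists if and only if `n ≠ 2`. (ii) For every `m ≥ 6` the value of `π_m(6)` is `m` or
`m + 1`. -/
theorem Pool.Agent.Results.MP_c7a479_co.OrderSix.result :
    (∀ m n : ℕ, 3 ≤ m → 2 ≤ n →
      ((∃ C : Fin m → (Fin m → Fin n) → Fin n, IsVariationalSet m n m C) ↔ n ≠ 2)) ∧
    (∀ m : ℕ, 6 ≤ m → IsPi m 6 m ∨ IsPi m 6 (m + 1)) := by
  refine ⟨fun m n hm hn => ⟨?_, fun h2 => ?_⟩, fun m hm => ?_⟩
  · rintro ⟨C, hC⟩ h2
    subst h2
    have := two_le hC (by omega)
    omega
  · by_cases h6 : n = 6
    · subst h6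
      exact Pool.Agent.W146.Six.exists_m_cubes hm
    · obtain ⟨C, hC1, hC2⟩ := exists_succ hm (by omega) h2 h6
      exact ⟨fun i => C i.castSucc, fun i => hC1 _,
        fun e he => hC2 (fun i => (e i).castSucc) ((Fin.castSucc_injective m).comp he)⟩
  have hle : ∀ k, (∃ C : Fin k → (Fin m → Fin 6) → Fin 6, IsVariationalSet m 6 k C) →
      k ≤ m + 1 := by
    rintro k ⟨C, hC⟩
    exact IsArray.le_add_one hC.2 (by norm_num) hm
  by_cases h : ∃ C : Fin (m + 1) → (Fin m → Fin 6) → Fin 6, IsVariationalSet m 6 (m + 1) C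
  · exact Or.inr ⟨h, fun k hk => hle k hk⟩
  · refine Or.inl ⟨Pool.Agent.W146.Six.exists_m_cubes (by omega), fun k hk => ?_⟩
    have := hle k hk
    rcases Nat.lt_or_ge m k with hlt | hge
    · have hk' : k = m + 1 := by omega
      subst hk'
      exact absurd hk h
    · exact hge
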